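import Pool.Agent.H37.CTP.Stmts
import Pool.Agent.H65.CNY.DIV

/-!
# Board `ctp` (helper37), row GDX: the refined divisor theorem, sharper for `p = 2`
-/

set_option autoImplicit false

namespace Pool.CND

theorem gdx_thm (hYLO : S_YLO) (hNCL : S_NCL) (hINP : S_INP) (hINT : S_INT) (hCON : S_CON)
    (hNGD : S_NGD) (hRAM : S_RAM) : S_GDX := by
  intro p k G _ _ _ _ a r hp hk hr H
  have hall : ∀ c ∈ Cond k G, ∃ y : ℤ, ((p ^ a * r : ℕ) : ℚ) * c = y := by
    intro c hc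
    let iF : Fintype G := Fintype.ofFinite G
    obtain ⟨L, fL, aL, ρ, t, hcov, P, hPt, hP⟩ := hc
    rcases hYLO p k L G P ρ c hp hk hcov.inj hP with h0 | ⟨W, I, C, l, hW, hI, hC, hl1, -, hY⟩
    · subst h0
      exact ⟨0, by simp⟩
    have hN : Subgroup.normalClosure (W : Set G) = ⊤ :=
      hNCL p k L G ρ t P _ hp hk hcov hPt Subgroup.normalClosure_normal
        (by rw [← hW]; exact Subgroup.subset_normalClosure)
    obtain ⟨hA, hB⟩ := H W hY.cardW hN
    obtain ⟨n, hpn, hcI⟩ := hY.cardI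
    have hcomm : YC I C r := dvv_comm p W I C n r hp hY.WI hY.nrmW hcI hpn hY.cen
      (fun g hg hog => hB g C hog (hY.nrmW g hg) hY.CW hY.ne hY.ea hY.cen (hY.nrmC g hg)
        (hY.semi g hg))
    obtain ⟨s, y, hy⟩ := (hY.den r).1 hcomm
    rcases hCON k L G P ρ W I c hcov.inj hW hI hP with h0 | ⟨l', hl', hc⟩
    · subst h0
      exact ⟨0, by simp⟩
    obtain ⟨z, hzW, hz1, hbz⟩ := hl'.mem
    have hle : (l : ℤ) ≤ l' := by
      obtain ⟨⟨x, hxC⟩, hx0⟩ := Subgroup.ne_bot_iff_exists_ne_one.1 hY.ne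
      have hx1 : x ≠ 1 := fun h => hx0 (Subtype.ext h)
      have hxr : x ∈ ram P ρ l := by
        rw [← hC]
        exact hxC
      rcases ((hRAM k L G P ρ x l hl1).1 hxr).2 with h | h
      · exact absurd (hcov.inj (h.trans (map_one ρ).symm)) hx1
      · exact h.trans (hl'.le x (hY.CW hxC) hx1)
    have hzC : z ∈ C := by
      have hz' : z ∈ ram P ρ 1 := by
        rw [← hW]
        exact hzW
      have : z ∈ ram P ρ l := (hRAM k L G P ρ z l hl1).2 ⟨hz'.1, Or.inr (by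
        show (l : ℤ) ≤ P.b (ρ z)
        have h1 : P.b (ρ z) = l' := hbz
        rw [h1]
        exact hle)⟩
      rw [← hC] at this
      exact this
    have hzp : z ^ p = 1 := hY.ea.1 z hzC
    obtain ⟨Hs, d', hHW, hzH, hcW, hcase⟩ := hA z hzW hz1 hzp (fun w hw => hY.cen w hw z hzC)
    obtain ⟨d, hda, z1, hz1'⟩ : ∃ d, d ≤ a ∧ ∃ z1 : ℤ,
        (p : ℚ) ^ d * U (fun g => P.b (ρ g)) W l' = z1 := by
      rcases hcase with ⟨hps, hda⟩ | ⟨hp2, hd1, hda, H₀, hH₀, hzH₀, hcH₀⟩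
      · obtain ⟨z1, hz1'⟩ := hINP p k L G ρ t P W W Hs d' l' z hp hk hcov hPt hW le_rfl hHW
          hY.cardW hzH hps hbz hcW hl'
        exact ⟨d', hda, z1, hz1'⟩
      · subst hp2
        obtain ⟨z1, hz1'⟩ := hINT k L G P ρ W Hs H₀ (d' - 1) l' z hk hcov.inj
          (fun g hg => by rw [← hW]; exact hg) hHW hH₀ hzH hzH₀ hcH₀ hbz
          (by rw [Nat.sub_add_cancel hd1]; exact hcW) hl'
        exact ⟨d' - 1, by omega, z1, by exact_mod_cast hz1'⟩
    have hWpos : 0 < Nat.card W := Nat.card_pos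
    have hU : (n : ℚ) * c = U (fun g => P.b (ρ g)) W l' := by
      have hW0 : (Nat.card W : ℚ) ≠ 0 := by exact_mod_cast hWpos.ne'
      apply mul_left_cancel₀ hW0
      rw [← hc, hcI]
      push_cast
      ring
    have hint : ((p ^ a * n : ℕ) : ℚ) * c = ((p ^ (a - d) * z1 : ℤ) : ℚ) := by
      have key : ((p ^ a * n : ℕ) : ℚ) * c = (p : ℚ) ^ a * U (fun g => P.b (ρ g)) W l' := by
        rw [← hU]
        push_cast
        ring
      rw [key]
      push_cast
      rw [← hz1']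
      nth_rewrite 1 [show a = (a - d) + d by omega]
      rw [pow_add]
      ring
    exact dvv_int p n r a s c _ y hp hpn hint hy
  exact ⟨hall, hNGD k G (p ^ a * r) (Nat.mul_pos (pow_pos hp.pos a) hr) hall⟩

end Pool.CND
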